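import Pool.Agent.H15.HLS.Targets

/-!
# Row APR: orders in residue classes
-/

set_option autoImplicit false

namespace Pool.Agent.H66.HLS

open Pool.Agent.H51.Homog Pool.Agent.H22.HSQ Pool.Agent.H15.HLS

theorem pf_APR : T_APR := by
  intro h m r N F hm hF hdiv
  classical
  by_contra hcon
  push Not at hcon
  set S : ℕ := ∑ a ∈ F, a with hS
  set n0 : ℕ := r + m * (N + 1) with hn0
  have hmR : (0 : ℝ) < m := by exact_mod_cast hm
  have hSR : (0 : ℝ) ≤ S := Nat.cast_nonneg S
  have heps : (0 : ℝ) < 1 / (4 * m * (S + 1)) := by positivity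
  obtain ⟨X0, hX0⟩ := almost_all h heps
  set ε : ℝ := 1 / (4 * m * (S + 1)) with hε
  set J : ℕ := n0 + X0 + 1 with hJ
  set X : ℕ := n0 + J * m with hX
  have hJX : J ≤ X := by
    have h1 : J * 1 ≤ J * m := Nat.mul_le_mul_left J hm
    omega
  have hbad : ∀ j, j < J → ∃ a ∈ F, ¬ IsOrder h (a * (n0 + j * m)) := by
    intro j _
    apply hcon
    · have h1 : 1 * (N + 1) ≤ m * (N + 1) := Nat.mul_le_mul_right _ hm
      omega
    · have h1 : n0 + j * m = r + m * (N + 1 + j) := by rw [hn0]; ring
      rw [h1]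
      show (r + m * (N + 1 + j)) % m = r % m
      rw [Nat.add_mul_mod_self_left]
  have hsub : Finset.range J ⊆
      F.biUnion fun a => (Finset.range J).filter fun j => ¬ IsOrder h (a * (n0 + j * m)) := by
    intro j hj
    obtain ⟨a, ha, hb⟩ := hbad j (Finset.mem_range.1 hj)
    exact Finset.mem_biUnion.2 ⟨a, ha, Finset.mem_filter.2 ⟨hj, hb⟩⟩
  have hc1 : J ≤ ∑ a ∈ F, ((Finset.range J).filter fun j =>
      ¬ IsOrder h (a * (n0 + j * m))).card := by
    calc J = (Finset.range J).card := (Finset.card_range J).symm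
      _ ≤ _ := Finset.card_le_card hsub
      _ ≤ _ := Finset.card_biUnion_le
  have hc2 : ∀ a ∈ F, ((((Finset.range J).filter fun j =>
      ¬ IsOrder h (a * (n0 + j * m))).card : ℕ) : ℝ) ≤ ε * (a * X) := by
    intro a ha
    have hapos := hF a ha
    have hX1 : X0 ≤ a * X := by
      have h1 : 1 * X ≤ a * X := Nat.mul_le_mul_right X hapos
      omega
    have h2 := hX0 (a * X) hX1
    have h3 : ((Finset.range J).filter fun j => ¬ IsOrder h (a * (n0 + j * m))).card ≤
        ({n : ℕ | n ∈ Finset.Icc 1 (a * X) ∧ 4 ∣ n ^ 2 * h ∧ ¬ IsOrder h n}).ncard := by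
      have hinj : Function.Injective fun j : ℕ => a * (n0 + j * m) := by
        intro j j' hj
        have h5 : n0 + j * m = n0 + j' * m := Nat.eq_of_mul_eq_mul_left hapos hj
        have h6 : j * m = j' * m := by omega
        exact Nat.eq_of_mul_eq_mul_right hm h6
      rw [← Finset.card_image_of_injective _ hinj, ← Set.ncard_coe_finset]
      apply Set.ncard_le_ncard
      · intro x hx
        rw [Finset.mem_coe, Finset.mem_image] at hx
        obtain ⟨j, hj, rfl⟩ := hx
        rw [Finset.mem_filter, Finset.mem_range] at hj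
        refine ⟨?_, ?_, hj.2⟩
        · rw [Finset.mem_Icc]
          constructor
          · have h1 : 1 * (N + 1) ≤ m * (N + 1) := Nat.mul_le_mul_right _ hm
            have h7 : 0 < n0 + j * m := by omega
            exact Nat.mul_pos hapos h7
          · apply Nat.mul_le_mul_left
            have h8 : j * m ≤ J * m := Nat.mul_le_mul_right m hj.1.le
            omega
        · apply hdiv a ha
          have h1 : n0 + j * m = r + m * (N + 1 + j) := by rw [hn0]; ring
          rw [h1]
          show (r + m * (N + 1 + j)) % m = r % m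
          rw [Nat.add_mul_mod_self_left]
      · exact (Finset.finite_toSet (Finset.Icc 1 (a * X))).subset fun n hn => hn.1
    have h9 : (((Finset.range J).filter fun j =>
        ¬ IsOrder h (a * (n0 + j * m))).card : ℝ) ≤
        (({n : ℕ | n ∈ Finset.Icc 1 (a * X) ∧ 4 ∣ n ^ 2 * h ∧ ¬ IsOrder h n}).ncard : ℝ) := by
      exact_mod_cast h3
    refine h9.trans (h2.trans (le_of_eq ?_))
    push_cast
    ring
  have hc3 : (J : ℝ) ≤ ε * (S * X) := by
    have h1 : (J : ℝ) ≤ ∑ a ∈ F, (((Finset.range J).filter fun j =>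
        ¬ IsOrder h (a * (n0 + j * m))).card : ℝ) := by
      exact_mod_cast hc1
    refine h1.trans ((Finset.sum_le_sum hc2).trans (le_of_eq ?_))
    rw [← Finset.mul_sum, ← Finset.sum_mul, hS]
    push_cast
    rfl
  have hc4 : ε * (S * X) ≤ X / (4 * m) := by
    rw [hε]
    have h1 : 1 / (4 * m * ((S : ℝ) + 1)) * (S * X) = (S / (S + 1)) * (X / (4 * m)) := by
      field_simp
    rw [h1]
    have h2 : (S : ℝ) / (S + 1) ≤ 1 := by
      rw [div_le_one (by positivity)]
      linarith
    have h3 : (0 : ℝ) ≤ X / (4 * m) := by positivity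
    calc (S : ℝ) / (S + 1) * (X / (4 * m)) ≤ 1 * (X / (4 * m)) :=
          mul_le_mul_of_nonneg_right h2 h3
      _ = X / (4 * m) := one_mul _
  have hc5 : (J : ℝ) * (4 * m) ≤ X := by
    have h1 := hc3.trans hc4
    rwa [le_div_iff₀ (by positivity)] at h1
  have hc6 : J * (4 * m) ≤ n0 + J * m := by
    have h1 : ((J * (4 * m) : ℕ) : ℝ) ≤ ((n0 + J * m : ℕ) : ℝ) := by
      rw [← hX]
      push_cast
      exact hc5
    exact_mod_cast h1
  have h7 : J * 1 ≤ J * m := Nat.mul_le_mul_left J hm
  have h8 : J * (4 * m) = J * m + J * m + J * m + J * m := by ring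
  omega

end Pool.Agent.H66.HLS
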