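import Pool.Agent.H15.HLS.Targets

/-!
# Row CNH: intercalates through a cell of the big hole
-/

set_option autoImplicit false

namespace Pool.Agent.H66.HLS

open Pool.Agent.H51.Homog Pool.Agent.H22.HSQ Pool.Agent.H15.HLS

theorem pf_CNH (hINF : T_INF) : T_CNH := by
  intro v _ W T _ _ g h q A M hG s t
  rw [← hG.hom s t]
  unfold intercalatesAt
  have hinj : Function.Injective (fun p : T × T =>
      ((Sum.inr p.1 : (ZMod v × W) ⊕ T), (Sum.inr p.2 : (ZMod v × W) ⊕ T))) := by
    rintro ⟨a, b⟩ ⟨c, d⟩ hcd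
    simp only [Prod.mk.injEq, Sum.inr.injEq] at hcd
    exact Prod.ext hcd.1 hcd.2
  rw [← Set.ncard_image_of_injective _ hinj]
  congr 1
  ext p
  constructor
  · rintro ⟨h1, h2, h3, h4⟩
    have h5 := hINF v W T g h q A M hG (Sum.inr s) (Sum.inr t) p.1 p.2 h3 h4 ⟨rfl, rfl⟩
    obtain ⟨p1, p2⟩ := p
    obtain ⟨h6, h7⟩ := h5
    cases p1 with
    | inl x => exact absurd h6 (by simp)
    | inr a =>
      cases p2 with
      | inl x => exact absurd h7 (by simp)
      | inr b =>
        refine ⟨(a, b), ⟨fun h => h1 (by rw [← h]), fun h => h2 (by rw [← h]), ?_, ?_⟩, rfl⟩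
        · exact Sum.inr_injective h3
        · exact Sum.inr_injective h4
  · rintro ⟨⟨a, b⟩, ⟨h1, h2, h3, h4⟩, rfl⟩
    refine ⟨fun h => h1 (Sum.inr_injective h), fun h => h2 (Sum.inr_injective h), ?_, ?_⟩
    · show (Sum.inr (M a b) : (ZMod v × W) ⊕ T) = Sum.inr (M s t)
      rw [show M a b = M s t from h3]
    · show (Sum.inr (M a t) : (ZMod v × W) ⊕ T) = Sum.inr (M s b)
      rw [show M a t = M s b from h4]

end Pool.Agent.H66.HLS
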