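import Pool.Agent.H15.HLS.Targets

/-!
# Row HOE: holey squares with the empty hole
-/

set_option autoImplicit false

namespace Pool.Agent.H66.HLS

open Pool.Agent.H51.Homog Pool.Agent.H22.HSQ Pool.Agent.H15.HLS

theorem pf_HOE : T_HOE := by
  intro h w hw
  obtain ⟨L, hL, hH⟩ := hw
  let e : Fin w ⊕ Fin 0 ≃ Fin w := Equiv.sumEmpty (Fin w) (Fin 0)
  have hr : ∀ r : Fin w ⊕ Fin 0, ¬ (r.isRight = true) := by
    intro r
    cases r with
    | inl a => simp
    | inr a => exact a.elim0
  refine ⟨fun r c => e.symm (L (e r) (e c)), ⟨⟨?_, ?_⟩, ?_, ?_⟩⟩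
  · intro r
    exact e.symm.bijective.comp ((hL.1 (e r)).comp e.bijective)
  · intro c
    exact e.symm.bijective.comp ((hL.2 (e c)).comp e.bijective)
  · intro a
    exact a.elim0
  · intro r c _
    rw [← hH (e r) (e c)]
    unfold intercalatesAt
    have hinj : Function.Injective (fun p : Fin w × Fin w => (e.symm p.1, e.symm p.2)) := by
      rintro ⟨a, b⟩ ⟨a', b'⟩ hab
      simp only [Prod.mk.injEq, EmbeddingLike.apply_eq_iff_eq] at hab
      exact Prod.ext hab.1 hab.2
    rw [← Set.ncard_image_of_injective _ hinj]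
    congr 1
    ext p
    constructor
    · rintro ⟨h1, h2, h3, h4, -⟩
      refine ⟨(e p.1, e p.2), ⟨fun h' => h1 (e.injective h'), fun h' => h2 (e.injective h'),
        ?_, ?_⟩, by simp⟩
      · exact e.symm.injective h3
      · exact e.symm.injective h4
    · rintro ⟨⟨a, b⟩, ⟨h1, h2, h3, h4⟩, rfl⟩
      refine ⟨?_, ?_, ?_, ?_, ?_, ?_, ?_⟩
      · intro h'
        apply h1
        show a = e r
        rw [← h']
        simp
      · intro h'
        apply h2
        show b = e c
        rw [← h']
        simp
      · show e.symm (L (e (e.symm a)) (e (e.symm b))) = e.symm (L (e r) (e c))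
        rw [Equiv.apply_symm_apply, Equiv.apply_symm_apply]
        exact congrArg _ h3
      · show e.symm (L (e (e.symm a)) (e c)) = e.symm (L (e r) (e (e.symm b)))
        rw [Equiv.apply_symm_apply, Equiv.apply_symm_apply]
        exact congrArg _ h4
      · exact fun h' => hr _ h'.1
      · exact fun h' => hr _ h'.1
      · exact fun h' => hr _ h'.1

end Pool.Agent.H66.HLS
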