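import Pool.Agent.H15.HLS.Targets

/-!
# Row REP: two coin problem
-/

set_option autoImplicit false

namespace Pool.Agent.H66.HLS

open Pool.Agent.H51.Homog Pool.Agent.H22.HSQ Pool.Agent.H15.HLS

theorem pf_REP : T_REP := by
  intro s₁ s₂ t h1 h2 hd ht
  obtain ⟨t', ht'⟩ := hd
  have hb := Nat.gcd_eq_gcd_ab s₁ s₂
  have h1' : (0 : ℤ) < s₁ := by exact_mod_cast h1
  have h2' : (0 : ℤ) < s₂ := by exact_mod_cast h2
  have ht2 : (s₁ : ℤ) * s₂ ≤ t := by exact_mod_cast ht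
  have ht3 : (t : ℤ) = s₁ * (Nat.gcdA s₁ s₂ * t') + s₂ * (Nat.gcdB s₁ s₂ * t') := by
    rw [ht']
    push_cast
    rw [hb]
    ring
  set u : ℤ := Nat.gcdA s₁ s₂ * t' with hu
  set w : ℤ := Nat.gcdB s₁ s₂ * t' with hw
  have ha0 : 0 ≤ u % s₂ := Int.emod_nonneg u h2'.ne'
  have ha1 : u % s₂ < s₂ := Int.emod_lt_of_pos u h2'
  have hdm : (s₂ : ℤ) * (u / s₂) + u % s₂ = u := Int.mul_ediv_add_emod u s₂
  have key : (t : ℤ) = (u % s₂) * s₁ + (w + s₁ * (u / s₂)) * s₂ := by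
    rw [ht3]
    linear_combination (-(s₁ : ℤ)) * hdm
  have hb0 : 0 ≤ w + s₁ * (u / s₂) := by
    by_contra hneg
    push Not at hneg
    have h3 : w + s₁ * (u / s₂) ≤ -1 := by omega
    have h4 : (w + s₁ * (u / s₂)) * s₂ ≤ (-1) * s₂ := mul_le_mul_of_nonneg_right h3 h2'.le
    have h5 : (u % s₂) * s₁ ≤ s₂ * s₁ := mul_le_mul_of_nonneg_right ha1.le h1'.le
    nlinarith
  refine ⟨(u % s₂).toNat, (w + s₁ * (u / s₂)).toNat, ?_⟩
  have h6 : ((t : ℕ) : ℤ) =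
      (((u % s₂).toNat * s₁ + (w + s₁ * (u / s₂)).toNat * s₂ : ℕ) : ℤ) := by
    push_cast
    rw [Int.toNat_of_nonneg ha0, Int.toNat_of_nonneg hb0]
    exact key
  exact_mod_cast h6

end Pool.Agent.H66.HLS
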